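import Pool.Agent.Q138.PS.YJ

/-!
# Effective Shafarevich conjecture for superelliptic curves: adding a prime near `c n ^ j α ^ n` to the set of places

We consider the curves `y ^ n = d (x - z_1) ^ (e_1) … (x - z_m) ^ (e_m)` of any degree `n ≤ D` over ALL number fields `K` whose branch points are
projectively equivalent to rational points and have good reduction outside the places dividing `n N`. Outside a small set of real `α > 1`, for all
primes `p` close to the numbers `c n ^ j α ^ n` and all `N ≤ p ^ (1 - ε)`, every curve of the family for `p N` belongs to the family for `N`, and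
its branch points are in a finite list which depends only on `D` and `N`. (The lemma `exists_lists` is taken from helper84's file on strings of
primes.)
-/

set_option autoImplicit false

open scoped Classical

namespace Pool.Agent.Results.MP_f89135_nt.AddedPrimesNearPowers

open Finset Filter NumberField IsDedekindDomain
open Pool.Agent.Q290.AB (Moeb GoodAt Conf)
open Pool.Agent.Q138.PS (NearPow)

/-- The curve `y ^ n = d ∏ (x - z i) ^ (e i)` over the number field `K`, where `2 ≤ n ≤ D`, `0 < e i < n`, `n` divides the sum of the `e i` (so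
that the branch points are the `z i`), `m ≥ 3`, `d ≠ 0`; the branch points are mapped to different rational numbers by a fractional linear
transformation over `K`, and they have good reduction at all places of `K` which do not divide `n N`. -/
def Fam (D N : ℕ) (K : Type) [Field K] [NumberField K] (n m : ℕ) (e : Fin m → ℕ) (d : K) (z : Fin m → K) : Prop :=
  2 ≤ n ∧ n ≤ D ∧ 3 ≤ m ∧ (∀ i, 0 < e i ∧ e i < n) ∧ n ∣ ∑ i, e i ∧ d ≠ 0 ∧
    (∃ b : Fin m → ℚ, Function.Injective b ∧ Moeb z b) ∧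
    ∀ v : HeightOneSpectrum (𝓞 K), ((n * N : ℕ) : 𝓞 K) ∉ v.asIdeal → GoodAt v z

/-- all the curves for `p N` are curves for `N`, and their branch points are equivalent to a member of the list `L D N` -/
def NothingNew (L : ℕ → ℕ → Set Conf) (D p N : ℕ) : Prop :=
  ∀ (K : Type) [Field K] [NumberField K] (n m : ℕ) (e : Fin m → ℕ) (d : K) (z : Fin m → K), Fam D (p * N) K n m e d z →
    Fam D N K n m e d z ∧ ∃ b : Fin m → ℚ, (⟨m, b⟩ : Conf) ∈ L D N ∧ Moeb z b

/-- one finite list for each `N` -/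
theorem exists_lists (D : ℕ) : ∃ L : ℕ → Set Conf, ∀ N, 1 ≤ N → (L N).Finite ∧ (∀ x ∈ L N, Function.Injective x.2) ∧
    ∀ (K : Type) [Field K] [NumberField K] (n m : ℕ) (e : Fin m → ℕ) (d : K) (z : Fin m → K), Fam D N K n m e d z →
      ∃ b : Fin m → ℚ, (⟨m, b⟩ : Conf) ∈ L N ∧ Moeb z b := by
  have h : ∀ N : ℕ, ∃ L : Set Conf, 1 ≤ N → L.Finite ∧ (∀ x ∈ L, Function.Injective x.2) ∧
    ∀ (K : Type) [Field K] [NumberField K] (n m : ℕ) (e : Fin m → ℕ) (d : K) (z : Fin m → K), Fam D N K n m e d z →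
      ∃ b : Fin m → ℚ, (⟨m, b⟩ : Conf) ∈ L ∧ Moeb z b := by
    intro N
    by_cases hN : 1 ≤ N
    swap
    · exact ⟨∅, fun h => absurd h hN⟩
    set Y : ℝ := 2 * ((D.factorial : ℝ) * N) with hY
    set Λ : Set ℚ := ⋃ s ∈ Pool.Agent.Q231.SH.trip Y, (Pool.Agent.Q231.SH.six s : Set ℚ) with hΛ
    have hΛfin : Λ.Finite := (Pool.Agent.Q231.SH.trip_finite Y).biUnion fun s _ => Finset.finite_toSet _
    obtain ⟨L, hL, hinj, hlist⟩ := Pool.Agent.Q290.AB.exists_list Λ hΛfin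
    refine ⟨L, fun _ => ⟨hL, hinj, fun K i1 i2 n m e d z ⟨h1, h2, h3, h4, h5, h6, ⟨b, hb, hz⟩, h8⟩ => ?_⟩⟩
    obtain ⟨b', hb'L, hcr⟩ := hlist m h3 b hb (fun i hi => by
      obtain ⟨s, hs, h6⟩ := Pool.Agent.Q290.AB.cross_mem h3 hb hz (by omega) h2 h8 (Y := Y) (by
        rintro ⟨t, ht, h9, h10⟩
        have h11 : (Pool.Agent.Q231.SH.rad3 t : ℝ) ≤ 2 * (D.factorial * N) := by
          exact_mod_cast Nat.le_of_dvd (by positivity) h10
        linarith) i hi
      exact Set.mem_biUnion hs h6)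
    refine ⟨b', hb'L, Pool.Agent.Q290.AB.Moeb.comp hz ?_⟩
    have n01 : (⟨0, by omega⟩ : Fin m) ≠ ⟨1, by omega⟩ := by rw [Ne, Fin.ext_iff]; simp
    have n02 : (⟨0, by omega⟩ : Fin m) ≠ ⟨2, by omega⟩ := by rw [Ne, Fin.ext_iff]; simp
    have n12 : (⟨1, by omega⟩ : Fin m) ≠ ⟨2, by omega⟩ := by rw [Ne, Fin.ext_iff]; simp
    exact Pool.Agent.Q231.SH.exists_moebius b b' hb (hinj _ hb'L) n01 n02 n12 (fun i => (congrFun hcr i).symm)
  choose L hL using h
  exact ⟨L, hL⟩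

/-- **Theorem.** -/
theorem result : ∃ L : ℕ → ℕ → Set Conf, (∀ D N, 1 ≤ N → (L D N).Finite ∧ ∀ x ∈ L D N, Function.Injective x.2) ∧
    ∀ ε l : ℝ, 0 < ε → ε ≤ 1 → l < 1 →
    ∃ Z : Set ℝ, dimH Z ≤ ENNReal.ofReal (min (1 - ε / 5) ((4 - 2 * ε) / 3) / (1 - l)) ∧ ∀ α : ℝ, 1 < α → α ∉ Z →
      ∀ (D : ℕ) (c : ℝ), 0 < c → IsAlgebraic ℚ c → ∀ (j : ℤ) (A : ℝ), ∀ᶠ n : ℕ in atTop,
        ∀ p N : ℕ, p.Prime → NearPow α c j A l n p → 1 ≤ N → (N : ℝ) ≤ (p : ℝ) ^ (1 - ε) → NothingNew L D p N := by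
  choose L hL using exists_lists
  refine ⟨L, fun D N hN => ⟨(hL D N hN).1, (hL D N hN).2.1⟩, ?_⟩
  intro ε l hε hε1 hl
  obtain ⟨Z, hZ, hg⟩ := Pool.Agent.Q138.PS.Sz.windows ε l hε hε1 hl
  refine ⟨Z, hZ, fun α hα hαZ D c hc hca j A => ?_⟩
  filter_upwards [hg α hα hαZ D c hc hca j A] with n₀ hn₀ p N hp hnear hN hNp K i1 i2 n r e d z hz
  obtain ⟨hDp, hfine⟩ := hn₀ p hp hnear
  obtain ⟨h1, h2, h3, h4, h5, h6, h7, h8⟩ := hz
  have hp0 : (0 : ℝ) < p := by exact_mod_cast hp.pos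
  have hmem : Fam D N K n r e d z := by
    refine ⟨h1, h2, h3, h4, h5, h6, h7, fun v hv => ?_⟩
    by_cases hv2 : ((n * (p * N) : ℕ) : 𝓞 K) ∈ v.asIdeal
    · have hv3 : ((p : ℕ) : 𝓞 K) ∈ v.asIdeal := by
        have e1 : ((n * (p * N) : ℕ) : 𝓞 K) = ((p : ℕ) : 𝓞 K) * ((n * N : ℕ) : 𝓞 K) := by push_cast; ring
        rw [e1] at hv2
        exact (v.isPrime.mem_or_mem hv2).resolve_right hv
      refine Pool.Agent.Q138.PS.Sz.good_of (N := p * N) hp hfine
        (Nat.mul_pos hp.pos hN) ?_ h3 (by omega) h2 h7 h8 v hv3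
      rw [show (2 - ε : ℝ) = 1 + (1 - ε) by ring, Real.rpow_add hp0, Real.rpow_one]
      push_cast
      exact mul_le_mul_of_nonneg_left hNp hp0.le
    · exact h8 v hv2
  exact ⟨hmem, (hL D N hN).2.2 K n r e d z hmem⟩

end Pool.Agent.Results.MP_f89135_nt.AddedPrimesNearPowers
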