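import Pool.Agent.Q84.NX.CrossRough

/-!
# Effective Shafarevich conjecture for superelliptic curves: adding one prime, or many primes, to the set of places

We consider the curves `y ^ n = d (x - z_1) ^ (e_1) … (x - z_m) ^ (e_m)` of any degree `n` over ALL number fields `K` whose branch points are
projectively equivalent to rational points and have good reduction outside the places dividing `n N` (the family for `N`). We add one prime `l`,
or all the primes which divide a number `r`: the family for `r N` contains the family for `N`.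

1. For all real numbers `M, L ≥ 1`, for all but `C (M L) ^ (2/3)` of the primes `l ≤ L` nothing new appears, for all `n` and `N` with `rad (n N) ≤ M`:
   the family of degree `n` for `l N` is the family for `N`. The constant `C` is absolute.
2. Let `0 < ε ≤ 1`. For all but `C(ε) L ^ (1 - ε / 10)` of the primes `l ≤ L` nothing new appears, for ALL `n` and `N` with
   `rad (n N) ≤ l ^ (1 - ε)`.
3. For all real `M, z, R ≥ 1`, for all but `C M ^ 2 R z ^ (-1/3)` of the integers `r ≤ R` without prime factors `≤ z` nothing new appears when all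
   the primes dividing `r` are added, for all `n` and `N` with `rad (n N) ≤ M`. The constant `C` is absolute. (There are about `R / log z` such `r`.)

So for these `l` and `r` each bound for the heights of the curves for `N` is true for the curves for `l N` or `r N`.

Method: if a place above `l` is a place of bad reduction, then `l` divides an abc-triple which comes from a cross ratio of the branch points and
whose radical divides `2 n N l`. There are few triples with a small radical (starting library), and few integers `l` divide an abc-triple with a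
radical at most `l ^ (2 - ε)` (starting library).
-/

set_option autoImplicit false

namespace Pool.Agent.Results.MP_f89135_nt.AddingOnePrime

open NumberField IsDedekindDomain
open Pool.Agent.Q290.AB (Moeb GoodAt)

/-- the product of the prime factors -/
def rad (n : ℕ) : ℕ := ∏ q ∈ n.primeFactors, q

/-- The curve `y ^ n = d ∏ (x - z i) ^ (e i)` over the number field `K`, where `n ≥ 2`, `0 < e i < n`, `n` divides the sum of the `e i` (so
that the branch points are the `z i`), `m ≥ 3`, `d ≠ 0`; the branch points are mapped to different rational numbers by a fractional linear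
transformation over `K`, and they have good reduction at all places of `K` which do not divide `n N`. -/
def Fam (N : ℕ) (K : Type) [Field K] [NumberField K] (n m : ℕ) (e : Fin m → ℕ) (d : K) (z : Fin m → K) : Prop :=
  2 ≤ n ∧ 3 ≤ m ∧ (∀ i, 0 < e i ∧ e i < n) ∧ n ∣ ∑ i, e i ∧ d ≠ 0 ∧
    (∃ b : Fin m → ℚ, Function.Injective b ∧ Moeb z b) ∧
    ∀ v : HeightOneSpectrum (𝓞 K), ((n * N : ℕ) : 𝓞 K) ∉ v.asIdeal → GoodAt v z

/-- for some `n` and `N` with `rad (n N) ≤ M` there is a curve of degree `n` over some number field in the family for `r N` which is not in the family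
for `N` -/
def NewCurves (M : ℝ) (r : ℕ) : Prop :=
  ∃ n N : ℕ, 1 ≤ N ∧ ((rad (n * N) : ℕ) : ℝ) ≤ M ∧ ∃ (K : Type) (_ : Field K) (_ : NumberField K) (m : ℕ) (e : Fin m → ℕ) (d : K)
    (z : Fin m → K), Fam (r * N) K n m e d z ∧ ¬ Fam N K n m e d z

theorem exists_bad {n N r : ℕ} {K : Type} [Field K] [NumberField K] {m : ℕ} {e : Fin m → ℕ} {d : K} {z : Fin m → K}
    (h : Fam (r * N) K n m e d z) (hnot : ¬ Fam N K n m e d z) :
    ∃ v : HeightOneSpectrum (𝓞 K), ((r : ℕ) : 𝓞 K) ∈ v.asIdeal ∧ ¬ GoodAt v z := by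
  obtain ⟨h1, h2, h3, h4, h5, h6, h7⟩ := h
  by_contra hcon
  push Not at hcon
  refine hnot ⟨h1, h2, h3, h4, h5, h6, fun v hv => ?_⟩
  by_cases hv2 : ((n * (r * N) : ℕ) : 𝓞 K) ∈ v.asIdeal
  · have e1 : ((n * (r * N) : ℕ) : 𝓞 K) = ((r : ℕ) : 𝓞 K) * ((n * N : ℕ) : 𝓞 K) := by push_cast; ring
    rw [e1] at hv2
    exact hcon v ((v.isPrime.mem_or_mem hv2).resolve_right hv)
  · exact h7 v hv2

theorem hit_of_new {M : ℝ} {l : ℕ} (hl : l.Prime) (h : NewCurves M l) : Pool.Agent.Q84.NX.Hit M l := by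
  obtain ⟨n, N, hN, hM, K, i1, i2, m, e, d, z, hF, hnot⟩ := h
  obtain ⟨v, hv, hbad⟩ := exists_bad hF hnot
  exact Pool.Agent.Q84.NX.hit_of_bad hF.2.1 hF.2.2.2.2.2.1 (by have := hF.1; omega) hN hF.2.2.2.2.2.2 hl hv hbad hM

theorem hitR_of_new {M : ℝ} {r : ℕ} (hr : 1 ≤ r) (h : NewCurves M r) : Pool.Agent.Q84.NX.HitR M r := by
  obtain ⟨n, N, hN, hM, K, i1, i2, m, e, d, z, hF, hnot⟩ := h
  obtain ⟨v, hv, hbad⟩ := exists_bad hF hnot
  exact Pool.Agent.Q84.NX.hitR_of_bad hF.2.1 hF.2.2.2.2.2.1 (by have := hF.1; omega) hN hF.2.2.2.2.2.2 hr hv hbad hM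

theorem count_le {A B : ℕ → Prop} (h : ∀ l, l.Prime → A l → B l) (L : ℝ) :
    {l : ℕ | l.Prime ∧ (l : ℝ) ≤ L ∧ A l}.ncard ≤ {l : ℕ | l.Prime ∧ (l : ℝ) ≤ L ∧ B l}.ncard := by
  refine Set.ncard_le_ncard (fun l hl => ⟨hl.1, hl.2.1, h l hl.1 hl.2.2⟩) ?_
  refine (Set.finite_Icc 0 ⌊L⌋₊).subset fun l hl => ⟨Nat.zero_le _, Nat.le_floor hl.2.1⟩

/-- **Theorem.** -/
theorem result :
    (∃ C : ℝ, 0 < C ∧ ∀ M L : ℝ, 1 ≤ M → 1 ≤ L →
      (({l : ℕ | l.Prime ∧ (l : ℝ) ≤ L ∧ NewCurves M l}.ncard : ℕ) : ℝ) ≤ C * (M * L) ^ ((2 : ℝ) / 3)) ∧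
    (∀ ε : ℝ, 0 < ε → ε ≤ 1 → ∃ C : ℝ, 0 < C ∧ ∀ L : ℝ, 1 ≤ L →
      (({l : ℕ | l.Prime ∧ (l : ℝ) ≤ L ∧ NewCurves ((l : ℝ) ^ (1 - ε)) l}.ncard : ℕ) : ℝ) ≤ C * L ^ (1 - ε / 10)) ∧
    ∃ C : ℝ, 0 < C ∧ ∀ M z R : ℝ, 1 ≤ M → 1 ≤ z → 1 ≤ R →
      (({r : ℕ | 1 ≤ r ∧ (r : ℝ) ≤ R ∧ (∀ q : ℕ, q.Prime → q ∣ r → z < q) ∧ NewCurves M r}.ncard : ℕ) : ℝ) ≤
        C * M ^ 2 * R * z ^ (-(1 / 3) : ℝ) := by
  refine ⟨?_, ?_, ?_⟩
  · obtain ⟨C, hC, h⟩ := Pool.Agent.Q84.NX.hit_count
    refine ⟨C, hC, fun M L hM hL => le_trans ?_ (h M L hM hL)⟩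
    exact_mod_cast count_le (fun l hl h' => hit_of_new hl h') L
  · intro ε hε hε1
    obtain ⟨C, hC, h⟩ := Pool.Agent.Q84.NX.hit_count_all ε hε hε1
    refine ⟨C, hC, fun L hL => le_trans ?_ (h L hL)⟩
    exact_mod_cast count_le (fun l hl h' => hit_of_new hl h') L
  · obtain ⟨C, hC, h⟩ := Pool.Agent.Q84.NX.hitR_count
    refine ⟨C, hC, fun M z R hM hz hR => le_trans ?_ (h M z R hM hz hR)⟩
    have h1 := Set.ncard_le_ncard (s := {r : ℕ | 1 ≤ r ∧ (r : ℝ) ≤ R ∧ (∀ q : ℕ, q.Prime → q ∣ r → z < q) ∧ NewCurves M r})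
      (t := {r : ℕ | 1 ≤ r ∧ (r : ℝ) ≤ R ∧ (∀ q : ℕ, q.Prime → q ∣ r → z < q) ∧ Pool.Agent.Q84.NX.HitR M r})
      (fun r hr => ⟨hr.1, hr.2.1, hr.2.2.1, hitR_of_new hr.1 hr.2.2.2⟩)
      ((Set.finite_Icc 1 ⌊R⌋₊).subset fun r hr => ⟨hr.1, Nat.le_floor hr.2.1⟩)
    exact_mod_cast h1

end Pool.Agent.Results.MP_f89135_nt.AddingOnePrime
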