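import Pool.Agent.Q290.AB.List

/-!
# Effective Shafarevich for superelliptic curves over all number fields, for almost all sets of places

For a squarefree integer `N` let `T` be the set of the places above the primes which divide `N`, in every number field `K`. We consider the curves
`y ^ n = d (x - z_1) ^ (e_1) … (x - z_m) ^ (e_m)` of any degree `n ≤ D` (prime or not) over ALL number fields `K` (of any degree), whose branch
points are projectively equivalent to rational points and have good reduction at all places of `K` which do not divide `n N`. If the curve has good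
reduction at a place `v` of `K` which does not divide `n`, even over an extension, then its branch points have good reduction at `v`.

For every `ε > 0` there is ONE finite list such that for all `N` outside a proportion `ε` every such curve is, over the algebraic closure, the curve
`y ^ n = (x - b_1) ^ (e_1) … (x - b_m) ^ (e_m)` of a configuration `b` of the list. So every function of the curve which depends only on the curve
over the algebraic closure, for instance the stable Faltings height of the Jacobian, is bounded by a constant `c(D, ε)` which does not depend on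
`K` and `N`, for all `N` outside a proportion `ε`; and for every `φ` which tends to infinity it is at most `φ(N)` for one hundred percent of the `N`.
-/

set_option autoImplicit false

namespace Pool.Agent.Results.MP_f89135_nt.AlmostAllPlaces

open Filter Topology NumberField IsDedekindDomain
open Pool.Agent.Q290.AB (Moeb GoodAt Conf)

/-- the squarefree integers `1 ≤ N ≤ T` -/
def Bases (T : ℕ) : Set ℕ := {N | 1 ≤ N ∧ N ≤ T ∧ Squarefree N}

/-- The curve `y ^ n = d ∏ (x - z i) ^ (e i)` over the number field `K`, where `2 ≤ n ≤ D`, `0 < e i < n`, `n` divides the sum of the `e i` (so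
that the branch points are the `z i`), `m ≥ 3`, `d ≠ 0`; the branch points are mapped to different rational numbers by a fractional linear
transformation over `K`, and they have good reduction at all places of `K` which do not divide `n N`. -/
def Fam (D N : ℕ) (K : Type) [Field K] [NumberField K] (n m : ℕ) (e : Fin m → ℕ) (d : K) (z : Fin m → K) : Prop :=
  2 ≤ n ∧ n ≤ D ∧ 3 ≤ m ∧ (∀ i, 0 < e i ∧ e i < n) ∧ n ∣ ∑ i, e i ∧ d ≠ 0 ∧
    (∃ b : Fin m → ℚ, Function.Injective b ∧ Moeb z b) ∧
    ∀ v : HeightOneSpectrum (𝓞 K), ((n * N : ℕ) : 𝓞 K) ∉ v.asIdeal → GoodAt v z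

/-- a function of the curves -/
abbrev Height : Type 1 :=
  (K : Type) → [Field K] → [NumberField K] → (n m : ℕ) → (Fin m → ℕ) → K → (Fin m → K) → ℝ

/-- `h` takes the same value at two curves over number fields `K`, `K'` with the same `n`, `e` whose branch points are projectively equivalent to
the same rational numbers (these curves are isomorphic over the algebraic closure) -/
def Invariant (h : Height) : Prop :=
  ∀ (K : Type) [Field K] [NumberField K] (K' : Type) [Field K'] [NumberField K'] (n m : ℕ) (e : Fin m → ℕ) (d : K) (z : Fin m → K)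
    (d' : K') (z' : Fin m → K') (b : Fin m → ℚ), d ≠ 0 → d' ≠ 0 → Function.Injective b → Moeb z b → Moeb z' b →
    h K n m e d z = h K' n m e d' z'

/-- all the curves of the family, over all number fields, have a configuration of the list -/
def AllIn (D : ℕ) (L : Set Conf) (N : ℕ) : Prop :=
  ∀ (K : Type) [Field K] [NumberField K] (n m : ℕ) (e : Fin m → ℕ) (d : K) (z : Fin m → K), Fam D N K n m e d z →
    ∃ b : Fin m → ℚ, (⟨m, b⟩ : Conf) ∈ L ∧ Moeb z b

/-- some curve of the family, over some number field, has `h > c` -/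
def Exceeds (D : ℕ) (h : Height) (N : ℕ) (c : ℝ) : Prop :=
  ∃ (K : Type) (_ : Field K) (_ : NumberField K) (n m : ℕ) (e : Fin m → ℕ) (d : K) (z : Fin m → K),
    Fam D N K n m e d z ∧ c < h K n m e d z

lemma bases_eq (T : ℕ) : Bases T = (Pool.Agent.Q231.SH.sqf T : Set ℕ) := by
  ext N
  simp [Bases, Pool.Agent.Q231.SH.sqf, and_assoc]

lemma bases_finite (T : ℕ) : (Bases T).Finite := by
  rw [bases_eq]; exact Finset.finite_toSet _

lemma bases_le (T : ℕ) : (T : ℝ) ≤ 4 * (Bases T).ncard := by
  rw [bases_eq, Set.ncard_coe_finset]; exact Pool.Agent.Q231.SH.le_sqf T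

theorem list_part (D : ℕ) (ε : ℝ) (hε : 0 < ε) : ∃ L : Set Conf, L.Finite ∧
    (∀ x ∈ L, Function.Injective x.2) ∧
    ∀ T : ℕ, (({N | N ∈ Bases T ∧ ¬ AllIn D L N}.ncard : ℕ) : ℝ) ≤ ε * (Bases T).ncard := by
  classical
  obtain ⟨L, hL, hinj, h⟩ := Pool.Agent.Q290.AB.main_list D (ε := ε / 4) (by positivity)
  refine ⟨L, hL, hinj, fun T => ?_⟩
  have hfin : {N | N ∈ Bases T ∧ ¬ AllIn D L N}.Finite := (bases_finite T).subset fun N hN => hN.1
  have h1 := h T hfin.toFinset (by
    intro N hN
    rw [Set.Finite.mem_toFinset] at hN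
    obtain ⟨⟨h1, h2, h3⟩, h4⟩ := hN
    refine ⟨Finset.mem_Icc.2 ⟨h1, h2⟩, ?_⟩
    unfold AllIn at h4
    push Not at h4
    obtain ⟨K, i1, i2, n, m, e, d, z, ⟨f1, f2, f3, f4, f5, f6, f7, f8⟩, h5⟩ := h4
    exact ⟨K, i1, i2, n, m, z, by omega, f2, f3, f7, f8, h5⟩)
  rw [Set.ncard_eq_toFinset_card _ hfin]
  have h2 := bases_le T
  nlinarith

theorem const_part (D : ℕ) (h : Height) (hh : Invariant h) (ε : ℝ) (hε : 0 < ε) : ∃ c : ℝ, ∀ T : ℕ,
    (({N | N ∈ Bases T ∧ Exceeds D h N c}.ncard : ℕ) : ℝ) ≤ ε * (Bases T).ncard := by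
  obtain ⟨L, hL, hinj, hT⟩ := list_part D ε hε
  have hV : (⋃ n ∈ Set.Iic D, ⋃ x ∈ L, (fun e : Fin x.1 → ℕ => h ℚ n x.1 e 1 x.2) ''
      (Set.univ.pi fun _ => Set.Iio n)).Finite := by
    refine (Set.finite_Iic D).biUnion fun n _ => hL.biUnion fun x _ => Set.Finite.image _ ?_
    exact (Set.Finite.pi' fun _ => Set.finite_Iio n).subset (by
      intro t ht i; exact ht i (Set.mem_univ _))
  obtain ⟨c, hc⟩ := hV.bddAbove
  refine ⟨c, fun T => le_trans ?_ (hT T)⟩
  have hsub : {N | N ∈ Bases T ∧ Exceeds D h N c} ⊆ {N | N ∈ Bases T ∧ ¬ AllIn D L N} := by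
    rintro N ⟨h1, K, i1, i2, n, m, e, d, z, hF, hlt⟩
    refine ⟨h1, fun hall => ?_⟩
    obtain ⟨b, hb, hiso⟩ := hall K n m e d z hF
    obtain ⟨f1, f2, f3, f4, f5, f6, f7, f8⟩ := hF
    have h2 : h K n m e d z = h ℚ n m e 1 b :=
      hh K ℚ n m e d z 1 b b f6 one_ne_zero (hinj _ hb) hiso (Pool.Agent.Q290.AB.Moeb.refl b)
    have h3 : h ℚ n m e 1 b ≤ c := by
      refine hc ?_
      simp only [Set.mem_iUnion]
      refine ⟨n, f2, ⟨m, b⟩, hb, e, ?_, rfl⟩
      intro i _
      exact (f4 i).2
    linarith
  exact_mod_cast Set.ncard_le_ncard hsub ((bases_finite T).subset fun N hN => hN.1)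

/-- **Effective Shafarevich for superelliptic curves over all number fields and almost all sets of places.** Let `D ≥ 2`. (1) For every `ε > 0`
there is one finite list `L` of configurations such that for all squarefree `N` outside a proportion `ε` the curves of the family, over all number
fields `K`, have configurations of the list up to fractional linear transformations. Let `h` be a real function of the curves which depends only on
the curve over the algebraic closure, such as the stable Faltings height of the Jacobian. (2) For every `ε > 0` there is a constant `c` such that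
for all `N` outside a proportion `ε` we have `h ≤ c` for all curves of the family over all number fields. (3) If `φ` tends to infinity, then for one
hundred percent of the `N` we have `h ≤ φ(N)` for all these curves. -/
theorem result (D : ℕ) :
    (∀ ε : ℝ, 0 < ε → ∃ L : Set Conf, L.Finite ∧ (∀ x ∈ L, Function.Injective x.2) ∧
      ∀ T : ℕ, (({N | N ∈ Bases T ∧ ¬ AllIn D L N}.ncard : ℕ) : ℝ) ≤ ε * (Bases T).ncard) ∧
    ∀ h : Height, Invariant h →
      (∀ ε : ℝ, 0 < ε → ∃ c : ℝ, ∀ T : ℕ,
        (({N | N ∈ Bases T ∧ Exceeds D h N c}.ncard : ℕ) : ℝ) ≤ ε * (Bases T).ncard) ∧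
      ∀ φ : ℕ → ℝ, Tendsto φ atTop atTop →
        Tendsto (fun T : ℕ => (({N | N ∈ Bases T ∧ Exceeds D h N (φ N)}.ncard : ℕ) : ℝ) /
          ((Bases T).ncard : ℝ)) atTop (𝓝 0) := by
  refine ⟨list_part D, fun h hh => ⟨const_part D h hh, fun φ hφ => ?_⟩⟩
  rw [Metric.tendsto_atTop]
  intro ε hε
  obtain ⟨c, hc⟩ := const_part D h hh (ε / 2) (by positivity)
  obtain ⟨N0, hN0⟩ := eventually_atTop.1 (tendsto_atTop.1 hφ c)
  obtain ⟨T1, hT1⟩ := exists_nat_gt (8 * (N0 : ℝ) / ε)
  refine ⟨T1 + 1, fun T hT => ?_⟩
  have hTpos : (0 : ℝ) < T := by exact_mod_cast (by omega : 0 < T)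
  have hb := bases_le T
  have hbpos : (0 : ℝ) < (Bases T).ncard := by linarith
  have hsub : {N | N ∈ Bases T ∧ Exceeds D h N (φ N)} ⊆
      {N | N ∈ Bases T ∧ Exceeds D h N c} ∪ Set.Iio N0 := by
    rintro N ⟨h1, K, i1, i2, n, m, e, d, z, hF, hlt⟩
    rcases lt_or_ge N N0 with h2 | h2
    · exact Or.inr h2
    · exact Or.inl ⟨h1, K, i1, i2, n, m, e, d, z, hF, lt_of_le_of_lt (hN0 N h2) hlt⟩
  have hfin : ({N | N ∈ Bases T ∧ Exceeds D h N c} ∪ Set.Iio N0).Finite :=
    ((bases_finite T).subset fun N hN => hN.1).union (Set.finite_Iio N0)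
  have h1 := (Set.ncard_le_ncard hsub hfin).trans (Set.ncard_union_le _ _)
  have h2 : (Set.Iio N0).ncard = N0 := by
    rw [← Finset.coe_range, Set.ncard_coe_finset, Finset.card_range]
  rw [h2] at h1
  have h3 : (({N | N ∈ Bases T ∧ Exceeds D h N (φ N)}.ncard : ℕ) : ℝ) ≤
      (({N | N ∈ Bases T ∧ Exceeds D h N c}.ncard : ℕ) : ℝ) + N0 := by exact_mod_cast h1
  have h4 := hc T
  have h5 : 8 * (N0 : ℝ) < ε * T := by
    rw [div_lt_iff₀ hε] at hT1
    have h6 : (T1 : ℝ) < T := by exact_mod_cast (by omega : T1 < T)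
    nlinarith
  have h6 : (N0 : ℝ) < ε / 2 * (Bases T).ncard := by nlinarith
  rw [Real.dist_eq, sub_zero, abs_of_nonneg (by positivity), div_lt_iff₀ hbpos]
  linarith

end Pool.Agent.Results.MP_f89135_nt.AlmostAllPlaces
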