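import Pool.Agent.Q84.NX.CrossStr

/-!
# Effective Shafarevich conjecture for superelliptic curves: adding a prime of a string to the set of places

We consider the curves `y ^ n = d (x - z_1) ^ (e_1) … (x - z_m) ^ (e_m)` of any degree `n` over ALL number fields `K` whose branch points are
projectively equivalent to rational points and have good reduction outside the places dividing `n N`. Let `0 < ε ≤ 1`. For all `κ > 0` and `m`
there is `c' > 0` and for every `Z` a number `W` with the following property. For every large `X` there is a set `S` of at most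
`(log X) ^ (49 / 50)` primes, all larger than `Z`, such that for EVERY function `f` with values `1` and `-1` on the primes at least `X ^ (1 - κ)`
integers `n`, `X < n ≤ 3X`, satisfy: the interval `[n, n + W]` contains at least `m` primes, and for every prime `p` in it

* the Legendre symbol `(p / q)` is `f q` for all odd primes `q ≤ c' log X` outside `S`;
* for ALL primes `l` with `|l - k p| ≤ p ^ (ε / 80)` for some integer `k`, `1 ≤ k ≤ p ^ (ε / 80)` (for instance `l = p`), and ALL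
  `N` and `n` with `rad (n N) ≤ l ^ (1 - ε)`, every curve of the family for `l N` of degree `n` belongs to the family for `N`: its branch points have
  good reduction at `l`.

In particular the bounds for the heights for `N` are true for `l N`, and the curves for `l N` have their branch points in a finite list which depends
only on `rad (n N)`.

Method: a place of bad reduction divides an abc-triple which comes from a cross ratio of the branch points (`Q84/NX/Cross`), and the radical of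
such a triple divides `2 n N l`; the primes near small multiples of the primes of the strings have only triples with a radical larger than
`l ^ (2 - ε')` (`MP_4ab349_nt.StringsOfPrimes`).
-/

set_option autoImplicit false

open scoped Classical

namespace Pool.Agent.Results.MP_f89135_nt.StringsOfPrimes

open Finset Filter NumberField IsDedekindDomain
open Pool.Agent.Q290.AB (Moeb GoodAt Conf)

/-- the product of the prime factors -/
def rad (n : ℕ) : ℕ := ∏ q ∈ n.primeFactors, q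

/-- The curve `y ^ n = d ∏ (x - z i) ^ (e i)` over the number field `K`, where `n ≥ 2`, `0 < e i < n`, `n` divides the sum of the `e i` (so
that the branch points are the `z i`), `m ≥ 3`, `d ≠ 0`; the branch points are mapped to different rational numbers by a fractional linear
transformation over `K`, and they have good reduction at all places of `K` which do not divide `n N`. -/
def Fam (N : ℕ) (K : Type) [Field K] [NumberField K] (n m : ℕ) (e : Fin m → ℕ) (d : K) (z : Fin m → K) : Prop :=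
  2 ≤ n ∧ 3 ≤ m ∧ (∀ i, 0 < e i ∧ e i < n) ∧ n ∣ ∑ i, e i ∧ d ≠ 0 ∧
    (∃ b : Fin m → ℚ, Function.Injective b ∧ Moeb z b) ∧
    ∀ v : HeightOneSpectrum (𝓞 K), ((n * N : ℕ) : 𝓞 K) ∉ v.asIdeal → GoodAt v z

/-- for all primes `l` within `p ^ (ε / 80)` of a multiple `k p`, `1 ≤ k ≤ p ^ (ε / 80)`, and all `N ≥ 1`, `n` with `rad (n N) ≤ l ^ (1 - ε)`, the
curves of degree `n` for `l N` are curves for `N`, and their branch points are equivalent to a member of the list `L (rad (n N))` -/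
def Fine (ε : ℝ) (L : ℕ → Set Conf) (p : ℕ) : Prop :=
  ∀ k l n N : ℕ, 1 ≤ k → (k : ℝ) ≤ (p : ℝ) ^ (ε / 80) → |(l : ℝ) - k * p| ≤ (p : ℝ) ^ (ε / 80) → l.Prime →
    1 ≤ N → ((rad (n * N) : ℕ) : ℝ) ≤ (l : ℝ) ^ (1 - ε) →
    ∀ (K : Type) [Field K] [NumberField K] (m : ℕ) (e : Fin m → ℕ) (d : K) (z : Fin m → K), Fam (l * N) K n m e d z →
      Fam N K n m e d z ∧ ∃ b : Fin m → ℚ, (⟨m, b⟩ : Conf) ∈ L (rad (n * N)) ∧ Moeb z b

/-- one finite list for each `M` -/
theorem exists_lists : ∃ L : ℕ → Set Conf, ∀ M, 1 ≤ M → (L M).Finite ∧ (∀ x ∈ L M, Function.Injective x.2) ∧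
    ∀ (K : Type) [Field K] [NumberField K] (n m N : ℕ) (z : Fin m → K), 1 ≤ n * N → rad (n * N) = M → 3 ≤ m →
      (∃ b : Fin m → ℚ, Function.Injective b ∧ Moeb z b) →
      (∀ v : HeightOneSpectrum (𝓞 K), ((n * N : ℕ) : 𝓞 K) ∉ v.asIdeal → GoodAt v z) →
      ∃ b : Fin m → ℚ, (⟨m, b⟩ : Conf) ∈ L M ∧ Moeb z b := by
  have h : ∀ M : ℕ, ∃ L : Set Conf, 1 ≤ M → L.Finite ∧ (∀ x ∈ L, Function.Injective x.2) ∧
    ∀ (K : Type) [Field K] [NumberField K] (n m N : ℕ) (z : Fin m → K), 1 ≤ n * N → rad (n * N) = M → 3 ≤ m →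
      (∃ b : Fin m → ℚ, Function.Injective b ∧ Moeb z b) →
      (∀ v : HeightOneSpectrum (𝓞 K), ((n * N : ℕ) : 𝓞 K) ∉ v.asIdeal → GoodAt v z) →
      ∃ b : Fin m → ℚ, (⟨m, b⟩ : Conf) ∈ L ∧ Moeb z b := by
    intro M
    by_cases hM : 1 ≤ M
    swap
    · exact ⟨∅, fun h => absurd h hM⟩
    set Y : ℝ := 2 * (M : ℝ) with hY
    set Λ : Set ℚ := ⋃ s ∈ Pool.Agent.Q231.SH.trip Y, (Pool.Agent.Q231.SH.six s : Set ℚ) with hΛ
    have hΛfin : Λ.Finite := (Pool.Agent.Q231.SH.trip_finite Y).biUnion fun s _ => Finset.finite_toSet _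
    obtain ⟨L, hL, hinj, hlist⟩ := Pool.Agent.Q290.AB.exists_list Λ hΛfin
    refine ⟨L, fun _ => ⟨hL, hinj, fun K i1 i2 n m N z hnN1 hnN h3 ⟨b, hb, hz⟩ h8 => ?_⟩⟩
    obtain ⟨b', hb'L, hcr⟩ := hlist m h3 b hb (fun i hi => by
      have h8' : ∀ v : HeightOneSpectrum (𝓞 K), ((1 * M : ℕ) : 𝓞 K) ∉ v.asIdeal → GoodAt v z := by
        intro v hv
        rw [one_mul, ← hnN] at hv
        exact h8 v (fun h => hv (Pool.Agent.Q84.NX.rd_mem hnN1 h))
      obtain ⟨s, hs, h6⟩ := Pool.Agent.Q290.AB.cross_mem h3 hb hz one_pos (le_refl 1) h8' (Y := Y) (by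
        rintro ⟨t, ht, h9, h10⟩
        rw [Nat.factorial_one, one_mul] at h10
        have h11 : (Pool.Agent.Q231.SH.rad3 t : ℝ) ≤ 2 * M := by
          exact_mod_cast Nat.le_of_dvd (by positivity) h10
        linarith) i hi
      exact Set.mem_biUnion hs h6)
    refine ⟨b', hb'L, Pool.Agent.Q290.AB.Moeb.comp hz ?_⟩
    have n01 : (⟨0, by omega⟩ : Fin m) ≠ ⟨1, by omega⟩ := by rw [Ne, Fin.ext_iff]; simp
    have n02 : (⟨0, by omega⟩ : Fin m) ≠ ⟨2, by omega⟩ := by rw [Ne, Fin.ext_iff]; simp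
    have n12 : (⟨1, by omega⟩ : Fin m) ≠ ⟨2, by omega⟩ := by rw [Ne, Fin.ext_iff]; simp
    exact Pool.Agent.Q231.SH.exists_moebius b b' hb (hinj _ hb'L) n01 n02 n12 (fun i => (congrFun hcr i).symm)
  choose L hL using h
  exact ⟨L, hL⟩

/-- **Theorem.** -/
theorem result : ∃ L : ℕ → Set Conf, (∀ M, 1 ≤ M → (L M).Finite ∧ ∀ x ∈ L M, Function.Injective x.2) ∧
    ∀ ε : ℝ, 0 < ε → ε ≤ 1 →
    ∀ κ : ℝ, 0 < κ → ∀ m : ℕ, ∃ c' : ℝ, 0 < c' ∧
    ∀ Z : ℕ, ∃ W : ℕ, ∃ X₀ : ℝ, ∀ X : ℝ, X₀ ≤ X →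
    ∃ S : Finset ℕ, (∀ q ∈ S, q.Prime ∧ Z < q) ∧ (S.card : ℝ) ≤ (Real.log X) ^ (49 / 50 : ℝ) ∧
    ∀ f : ℕ → ℤ, (∀ q, f q = 1 ∨ f q = -1) →
      X ^ (1 - κ) ≤ (((Icc 1 ⌊3 * X⌋₊).filter fun n : ℕ => X < n ∧
        m ≤ ((Icc n (n + W)).filter Nat.Prime).card ∧
        ∀ p ∈ Icc n (n + W), p.Prime → Fine ε L p ∧
          ∀ q : ℕ, q.Prime → q ≠ 2 → (q : ℝ) ≤ c' * Real.log X → q ∉ S → jacobiSym p q = f q).card : ℝ) := by
  obtain ⟨L, hL⟩ := exists_lists
  refine ⟨L, fun N hN => ⟨(hL N hN).1, (hL N hN).2.1⟩, ?_⟩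
  intro ε hε hε1 κ hκ m
  obtain ⟨c', hc', h⟩ := Pool.Agent.Results.MP_4ab349_nt.StringsOfPrimes.result (ε / 2) (by positivity) (by linarith) κ hκ m
  obtain ⟨X₁, hX₁, hlarge⟩ := Pool.Agent.Q84.NX.large 1 ε hε
  refine ⟨c', hc', fun Z => ?_⟩
  obtain ⟨W, X₀, hX₀⟩ := h Z
  refine ⟨W, max X₀ X₁, fun X hX => ?_⟩
  obtain ⟨S, hS1, hS2, hS3⟩ := hX₀ X ((le_max_left _ _).trans hX)
  refine ⟨S, hS1, hS2, fun f hf => (hS3 f hf).trans ?_⟩
  rw [Nat.cast_le]
  apply card_le_card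
  intro n hn
  rw [mem_filter] at hn ⊢
  obtain ⟨hn1, hn2, hn3, hn4⟩ := hn
  refine ⟨hn1, hn2, hn3, fun p hp hpp => ⟨?_, (hn4 p hp hpp).2⟩⟩
  have hfine := (hn4 p hp hpp).1
  have hpX : X₁ ≤ p := by
    have h1 : (n : ℝ) ≤ p := by exact_mod_cast (mem_Icc.1 hp).1
    have h2 := (le_max_right X₀ X₁).trans hX
    linarith
  intro k l n N hk hkp hkl hl hN hNl K i1 i2 r e d z ⟨h1, h3, h4, h5, h6, h7, h8⟩
  have hl0 : (0 : ℝ) < l := by exact_mod_cast hl.pos
  have hgood : ∀ v : HeightOneSpectrum (𝓞 K), ((n * N : ℕ) : 𝓞 K) ∉ v.asIdeal → GoodAt v z := by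
    intro v hv
    by_cases hv2 : ((n * (l * N) : ℕ) : 𝓞 K) ∈ v.asIdeal
    · have hv3 : ((l : ℕ) : 𝓞 K) ∈ v.asIdeal := by
        have e1 : ((n * (l * N) : ℕ) : 𝓞 K) = ((l : ℕ) : 𝓞 K) * ((n * N : ℕ) : 𝓞 K) := by push_cast; ring
        rw [e1] at hv2
        exact (v.isPrime.mem_or_mem hv2).resolve_right hv
      refine Pool.Agent.Q84.NX.good_of_fine (N := l * N) hε1 hX₁ hlarge hpX hfine hk hkp hkl hl
        (Nat.mul_pos hl.pos hN) (n := n) (by omega) ?_ h3 h7 h8 v hv3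
      rw [show (2 - ε : ℝ) = 1 + (1 - ε) by ring, Real.rpow_add hl0, Real.rpow_one]
      have e2 : n * (l * N) = l * (n * N) := by ring
      rw [e2]
      have e3 : ((Pool.Agent.Q84.NX.rd (l * (n * N)) : ℕ) : ℝ) ≤ l * ((rad (n * N) : ℕ) : ℝ) := by
        exact_mod_cast Pool.Agent.Q84.NX.rd_mul_le hl (Nat.mul_pos (by omega) hN).ne'
      exact e3.trans (mul_le_mul_of_nonneg_left hNl hl0.le)
    · exact h8 v hv2
  exact ⟨⟨h1, h3, h4, h5, h6, h7, hgood⟩,
    (hL (rad (n * N)) (Pool.Agent.Q84.NX.rd_pos _)).2.2 K n r N z (Nat.mul_pos (by omega) hN) rfl h3 h7 hgood⟩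

end Pool.Agent.Results.MP_f89135_nt.StringsOfPrimes
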